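import Mathlib

/-!
# MP_9cf868_co: the Hall-type condition does not give an alternating path covering one side
-/

set_option autoImplicit false
set_option maxRecDepth 100000

namespace Pool.Agent.Results.MP_9cf868_co.NoAltPath

/-- The set of vertices joined to some vertex of `X` by a red edge (colour `true`) and to some vertex of
`X` by a blue edge (colour `false`). -/
def NRB {V : Type} (G : SimpleGraph V) (χ : Sym2 V → Bool) (X : Finset V) : Set V :=
  {v | (∃ x ∈ X, G.Adj x v ∧ χ s(x, v) = true) ∧ (∃ y ∈ X, G.Adj y v ∧ χ s(y, v) = false)}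

/-- Any two consecutive edges of the vertex sequence have different colours. -/
def Alternating {V : Type} (χ : Sym2 V → Bool) : List V → Prop
  | x :: y :: z :: l => χ s(x, y) ≠ χ s(y, z) ∧ Alternating χ (y :: z :: l)
  | _ => True

/-- An alternating path: a sequence of distinct vertices in which consecutive vertices are adjacent and
any two consecutive edges have different colours. -/
def IsAlternatingPath {V : Type} (G : SimpleGraph V) (χ : Sym2 V → Bool) (p : List V) : Prop :=
  p.Nodup ∧ p.IsChain G.Adj ∧ Alternating χ p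

/-- Colour of the pair `{a, b}` with `a < b`, if it is an edge: the parts are `{0, 1, 2, 3}` and
`{4, 5, 6}`. -/
def tab : ℕ → ℕ → Option Bool
  | 0, 4 => some false
  | 1, 4 => some true
  | 0, 5 => some false
  | 1, 5 => some true
  | 2, 5 => some false
  | 3, 5 => some true
  | 0, 6 => some true
  | 1, 6 => some false
  | 2, 6 => some false
  | 3, 6 => some true
  | _, _ => none

/-- The colour of a pair, if it is an edge. -/
def colo (u v : Fin 7) : Option Bool := tab (min u.val v.val) (max u.val v.val)

theorem colo_comm (u v : Fin 7) : colo u v = colo v u := by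
  unfold colo
  rw [min_comm, max_comm]

/-- The graph. -/
def G : SimpleGraph (Fin 7) where
  Adj u v := (colo u v).isSome = true
  symm := ⟨fun u v h => by rw [colo_comm]; exact h⟩
  loopless := ⟨by decide⟩

instance : DecidableRel G.Adj := fun u v => inferInstanceAs (Decidable ((colo u v).isSome = true))

/-- The colouring. -/
def χ : Sym2 (Fin 7) → Bool :=
  Sym2.lift ⟨fun u v => (colo u v).getD false, fun u v => by simp only; rw [colo_comm]⟩

/-- Whether the path `q` (most recent vertex first) can be extended by `w`. -/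
def canExt (w : Fin 7) : List (Fin 7) → Bool
  | [] => true
  | [x] => decide (w ≠ x) && decide (G.Adj w x)
  | x :: y :: l => decide (w ∉ x :: y :: l) && decide (G.Adj w x) &&
      decide ((colo w x).getD false ≠ (colo x y).getD false)

/-- All alternating paths with `k + 1` vertices. -/
def paths : ℕ → List (List (Fin 7))
  | 0 => (List.finRange 7).map (fun v => [v])
  | k + 1 => (paths k).flatMap (fun q =>
      ((List.finRange 7).filter (fun w => canExt w q)).map (fun w => w :: q))

theorem mem_paths : ∀ (k : ℕ) (p : List (Fin 7)), p.length = k + 1 → IsAlternatingPath G χ p →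
    p ∈ paths k := by
  intro k
  induction k with
  | zero =>
    intro p hp _
    obtain ⟨v, rfl⟩ := List.length_eq_one_iff.1 hp
    exact List.mem_map.2 ⟨v, List.mem_finRange v, rfl⟩
  | succ k ih =>
    intro p hp h
    obtain ⟨h1, h2, h3⟩ := h
    rcases p with _ | ⟨w, q⟩
    · simp at hp
    · rcases q with _ | ⟨x, q⟩
      · simp at hp
      · have hq : IsAlternatingPath G χ (x :: q) := by
          refine ⟨(List.nodup_cons.1 h1).2, (List.isChain_cons_cons.1 h2).2, ?_⟩
          rcases q with _ | ⟨y, l⟩
          · trivial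
          · exact h3.2
        have hmem := ih (x :: q) (by simpa using hp) hq
        refine List.mem_flatMap.2 ⟨x :: q, hmem, List.mem_map.2 ⟨w, ?_, rfl⟩⟩
        rw [List.mem_filter]
        refine ⟨List.mem_finRange w, ?_⟩
        have hadj := (List.isChain_cons_cons.1 h2).1
        have hnot := (List.nodup_cons.1 h1).1
        rcases q with _ | ⟨y, l⟩
        · simp only [canExt, Bool.and_eq_true, decide_eq_true_eq]
          exact ⟨hadj.ne, hadj⟩
        · simp only [canExt, Bool.and_eq_true, decide_eq_true_eq]
          exact ⟨⟨hnot, hadj⟩, h3.1⟩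

theorem paths_check : ∀ k < 7, ∀ p ∈ paths k, ¬ ∀ a ∈ ({0, 1, 2, 3} : Finset (Fin 7)), a ∈ p := by
  decide +kernel

/-- There are a finite graph `G`, bipartite with parts `A` and `B`, and a colouring of its edges with two
colours such that `|N^{RB}(X)| ≥ |X| - 1` for every `X ⊆ A`, while no alternating path covers `A`. -/
theorem result : ∃ (V : Type) (_ : Fintype V) (G : SimpleGraph V) (A B : Finset V)
    (χ : Sym2 V → Bool),
    (Disjoint A B ∧ (∀ v, v ∈ A ∨ v ∈ B) ∧
      ∀ u v, G.Adj u v → (u ∈ A ∧ v ∈ B) ∨ (u ∈ B ∧ v ∈ A)) ∧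
    (∀ X ⊆ A, X.card - 1 ≤ (NRB G χ X).ncard) ∧
    ¬ ∃ p : List V, IsAlternatingPath G χ p ∧ ∀ a ∈ A, a ∈ p := by
  refine ⟨Fin 7, inferInstance, G, {0, 1, 2, 3}, {4, 5, 6}, χ, ⟨?_, ?_, ?_⟩, ?_, ?_⟩
  · decide
  · decide
  · decide +kernel
  · intro X hX
    have hset : NRB G χ X = ((Finset.univ.filter (fun v =>
        (∃ x ∈ X, G.Adj x v ∧ χ s(x, v) = true) ∧
        (∃ y ∈ X, G.Adj y v ∧ χ s(y, v) = false)) : Finset (Fin 7)) : Set (Fin 7)) := by
      ext v
      simp [NRB]
    rw [hset, Set.ncard_coe_finset]
    have key : ∀ X ∈ ({0, 1, 2, 3} : Finset (Fin 7)).powerset, X.card - 1 ≤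
        (Finset.univ.filter (fun v : Fin 7 => (∃ x ∈ X, G.Adj x v ∧ χ s(x, v) = true) ∧
        (∃ y ∈ X, G.Adj y v ∧ χ s(y, v) = false))).card := by
      decide +kernel
    exact key X (Finset.mem_powerset.2 hX)
  · rintro ⟨p, hp, hA⟩
    have hlen : p.length ≤ 7 := by
      have := hp.1.length_le_card
      simpa using this
    have hpos : 0 < p.length := List.length_pos_of_mem (hA 0 (by decide))
    have hmem := mem_paths (p.length - 1) p (by omega) hp
    exact paths_check (p.length - 1) (by omega) p hmem hA

end Pool.Agent.Results.MP_9cf868_co.NoAltPath
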